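import Pool.Agent.Q196.XG.Sph

/-!
# Both kinds of saddles on a knotted hypersurface

Let `M ⊂ Sⁿ`, `n ≥ 4`, be a smooth closed simply connected hypersurface with two connected sides
`W₁ = {R ≤ 0}` and `W₂ = {R ≥ 0}` (for instance a smooth 3-sphere in `S⁴`), and suppose that `M` is
knotted: the sides are not both diffeomorphic to the closed ball. Let `F` be a smooth function on the
sphere whose critical points in `W₁` have a direction of positive second derivative and whose
critical points in `W₂` have a direction of negative second derivative (for instance a function with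
only two critical points, the minimum in the interior of `W₁` and the maximum in the interior of
`W₂`). Then there are a critical point of `F` on `W₁` (interior, or on `M` with the gradient of `F`
pointing into `W₁`) at which the second variation is nonpositive on a plane and nonnegative in a
direction, and a critical point of `-F` on `W₂` at which the second variation of `F` is nonnegative
on a plane and nonpositive in a direction. For `n = 4` these are, on `M`, the saddles of the two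
kinds (index two and index one).
-/

set_option autoImplicit false

namespace Pool.Agent.Results.MP_6c077c_gt.BothSaddles

open Set Metric Filter
open scoped Manifold ContDiff Topology RealInnerProductSpace

/-- Euclidean space of dimension `n`. -/
abbrev Eu (n : ℕ) := EuclideanSpace ℝ (Fin n)

/-- The unit sphere `Sⁿ` of `ℝⁿ⁺¹`. -/
abbrev S (n : ℕ) := sphere (0 : Eu (n + 1)) 1

/-- `W` is a smoothly embedded closed `n`-ball of `Sⁿ`. -/
def IsSmoothBall (n : ℕ) (W : Set (S n)) : Prop :=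
  ∃ Φ : Eu n → S n, Topology.IsOpenEmbedding Φ ∧ IsLocalDiffeomorph (𝓡 n) (𝓡 n) ∞ Φ ∧
    Φ '' closedBall 0 1 = W

/-- `M = {R = 0}` is a simply connected smooth hypersurface of the sphere with two connected sides:
`R` is smooth, `0` is a regular value of its restriction to the sphere, `{R ≤ 0}` and `{R ≥ 0}` are
connected, and `{R = 0}` is simply connected. -/
structure TwoSided (n : ℕ) (R : Eu (n + 1) → ℝ) : Prop where
  smooth : ContDiff ℝ ∞ R
  regular : ∀ x, ‖x‖ = 1 → R x = 0 → ∃ v, ⟪x, v⟫ = 0 ∧ fderiv ℝ R x v ≠ 0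
  connected_neg : IsConnected {x : S n | R x ≤ 0}
  connected_pos : IsConnected {x : S n | 0 ≤ R x}
  simply : SimplyConnectedSpace {x : S n | R x = 0}

/-- Both sides of `M = {R = 0}` are diffeomorphic to the closed ball. -/
def Unknotted (n : ℕ) (R : Eu (n + 1) → ℝ) : Prop :=
  IsSmoothBall n {x : S n | R x ≤ 0} ∧ IsSmoothBall n {x : S n | 0 ≤ R x}

/-- At every critical point `x` of the restriction of `F` to the sphere in `{R ≤ 0}` the second
derivative of `F` is positive along some curve of the sphere. -/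
def NoMax (n : ℕ) (R F : Eu (n + 1) → ℝ) : Prop :=
  ∀ x, ‖x‖ = 1 → R x ≤ 0 → (∀ v, ⟪x, v⟫ = 0 → fderiv ℝ F x v = 0) →
    ∃ γ : ℝ → Eu (n + 1), ContDiffAt ℝ 2 γ 0 ∧ γ 0 = x ∧ (∀ᶠ t in 𝓝 0, ‖γ t‖ = 1) ∧
      0 < deriv (deriv fun t => F (γ t)) 0

/-- `x` is a critical point of the restriction of `F` to `{R ≤ 0}`, with multiplier `s ≥ 0` (equal
to `0` if `R x < 0`): `dF + s dR = 0` on the tangent vectors of the sphere at `x`. -/
def Critical (n : ℕ) (R F : Eu (n + 1) → ℝ) (x : Eu (n + 1)) (s : ℝ) : Prop :=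
  ‖x‖ = 1 ∧ R x ≤ 0 ∧ 0 ≤ s ∧ s * R x = 0 ∧
    ∀ v, ⟪x, v⟫ = 0 → fderiv ℝ F x v + s * fderiv ℝ R x v = 0

/-- The second derivative at `0` of `F + s R` along `γ`. -/
noncomputable def second {n : ℕ} (R F : Eu (n + 1) → ℝ) (s : ℝ) (γ : ℝ → Eu (n + 1)) : ℝ :=
  deriv (deriv fun t => F (γ t) + s * R (γ t)) 0

/-- `γ` is a curve of the sphere through `x` with velocity `v`. -/
def Through {n : ℕ} (x v : Eu (n + 1)) (γ : ℝ → Eu (n + 1)) : Prop :=
  ContDiffAt ℝ 2 γ 0 ∧ γ 0 = x ∧ deriv γ 0 = v ∧ ∀ᶠ t in 𝓝 0, ‖γ t‖ = 1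

/-- The second variation of `F + s R` at `x` is nonpositive on a plane of tangent vectors of the
sphere and nonnegative on a nonzero tangent vector (all tangent to `{R = 0}` if `s ≠ 0`). -/
def Saddle (n : ℕ) (R F : Eu (n + 1) → ℝ) (x : Eu (n + 1)) (s : ℝ) : Prop :=
  (∃ v w : Eu (n + 1), LinearIndependent ℝ ![v, w] ∧ ⟪x, v⟫ = 0 ∧ ⟪x, w⟫ = 0 ∧
    s * fderiv ℝ R x v = 0 ∧ s * fderiv ℝ R x w = 0 ∧
    ∀ (a b : ℝ) (γ : ℝ → Eu (n + 1)), Through x (a • v + b • w) γ → second R F s γ ≤ 0) ∧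
  ∃ z : Eu (n + 1), z ≠ 0 ∧ ⟪x, z⟫ = 0 ∧ s * fderiv ℝ R x z = 0 ∧
    ∀ γ : ℝ → Eu (n + 1), Through x z γ → 0 ≤ second R F s γ

theorem neg_twoSided {n : ℕ} {R : Eu (n + 1) → ℝ} (hR : TwoSided n R) :
    TwoSided n (fun z => -R z) := by
  have hfd : ∀ x, fderiv ℝ (fun z => -R z) x = -fderiv ℝ R x := fun x => fderiv_neg
  refine ⟨hR.smooth.neg, fun x hx hx0 => ?_, ?_, ?_, ?_⟩
  · obtain ⟨v, hv1, hv2⟩ := hR.regular x hx (by simpa using hx0)
    exact ⟨v, hv1, by rw [hfd]; simpa using hv2⟩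
  · have : {x : S n | -R (x : Eu (n + 1)) ≤ 0} = {x : S n | 0 ≤ R x} := by ext x; simp
    rw [this]; exact hR.connected_pos
  · have : {x : S n | 0 ≤ -R (x : Eu (n + 1))} = {x : S n | R x ≤ 0} := by ext x; simp
    rw [this]; exact hR.connected_neg
  · have : {x : S n | -R (x : Eu (n + 1)) = 0} = {x : S n | R x = 0} := by ext x; simp
    rw [this]; exact hR.simply

/-- neither side of a knotted hypersurface is a ball -/
theorem not_ball {n : ℕ} {R : Eu (n + 1) → ℝ} (hR : TwoSided n R) (hk : ¬Unknotted n R) :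
    ¬IsSmoothBall n {x : S n | R x ≤ 0} := by
  haveI : Fact (Module.finrank ℝ (Eu (n + 1)) = n + 1) := ⟨finrank_euclideanSpace_fin⟩
  exact fun h => hk ⟨h, Q100.SS.other_side hR.smooth hR.regular h⟩

theorem unknotted_neg {n : ℕ} {R : Eu (n + 1) → ℝ} (h : Unknotted n fun z => -R z) :
    Unknotted n R := by
  obtain ⟨h1, h2⟩ := h
  have e1 : {x : S n | -R (x : Eu (n + 1)) ≤ 0} = {x : S n | 0 ≤ R x} := by ext x; simp
  have e2 : {x : S n | 0 ≤ -R (x : Eu (n + 1))} = {x : S n | R x ≤ 0} := by ext x; simp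
  rw [e1] at h1
  rw [e2] at h2
  exact ⟨h2, h1⟩

theorem one_side (n : ℕ) (hn : 4 ≤ n) (R : Eu (n + 1) → ℝ) (hR : TwoSided n R)
    (hball : ¬IsSmoothBall n {x : S n | R x ≤ 0}) (F : Eu (n + 1) → ℝ) (hF : ContDiff ℝ ∞ F)
    (hFc : NoMax n R F) : ∃ x s, Critical n R F x s ∧ Saddle n R F x s := by
  haveI : Fact (Module.finrank ℝ (Eu (n + 1)) = n + 1) := ⟨finrank_euclideanSpace_fin⟩
  have hball' : ¬Q100.SS.IsBallS n {x : S n | R x ≤ 0} := hball
  obtain ⟨x, h1, h2, s, h3, h4, h5, ⟨v, w, h6, h7, h8, h9, h10, h11⟩, z, h12, h13, h14, h15⟩ :=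
    Q196.XG.sph_crit3 hn hR.smooth hR.regular hR.connected_neg hball' hR.simply hF hFc
  exact ⟨x, s, ⟨h1, h2, h3, h4, h5⟩, ⟨v, w, h6, h7, h8, h9, h10,
    fun a b γ hγ => h11 a b γ hγ.1 hγ.2.1 hγ.2.2.1 hγ.2.2.2⟩, z, h12, h13, h14,
    fun γ hγ => h15 γ hγ.1 hγ.2.1 hγ.2.2.1 hγ.2.2.2⟩

/-- great circles -/
theorem circle {n : ℕ} {x v : Eu (n + 1)} (hx : ‖x‖ = 1) (hv : ‖v‖ = 1) (hxv : ⟪x, v⟫ = 0)
    (r : ℝ) : Through x (r • v) fun t => Real.cos (r * t) • x + Real.sin (r * t) • v := by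
  have hd : ∀ t, HasDerivAt (fun t => Real.cos (r * t) • x + Real.sin (r * t) • v)
      ((-Real.sin (r * t) * r) • x + (Real.cos (r * t) * r) • v) t := by
    intro t
    have h1 : HasDerivAt (fun t => r * t) r t := by
      simpa using (hasDerivAt_id t).const_mul r
    exact ((h1.cos).smul_const x).add ((h1.sin).smul_const v)
  refine ⟨?_, by simp, ?_, Filter.Eventually.of_forall fun t => ?_⟩
  · have : ContDiff ℝ 2 fun t : ℝ => Real.cos (r * t) • x + Real.sin (r * t) • v := by fun_prop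
    exact this.contDiffAt
  · rw [(hd 0).deriv]
    simp
  · have h2 : ‖Real.cos (r * t) • x + Real.sin (r * t) • v‖ ^ 2 = 1 := by
      rw [norm_add_sq_real, inner_smul_left, inner_smul_right, hxv, norm_smul, norm_smul, hx, hv,
        Real.norm_eq_abs, Real.norm_eq_abs, mul_one, mul_one, sq_abs, sq_abs]
      simp
    exact (pow_eq_one_iff_of_nonneg (norm_nonneg _) two_ne_zero).1 h2

theorem second_circle {n : ℕ} {e x v : Eu (n + 1)} (hv : ⟪e, v⟫ = 0) (r : ℝ) :
    deriv (deriv fun t => ⟪e, Real.cos (r * t) • x + Real.sin (r * t) • v⟫) 0 =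
      -(r ^ 2 * ⟪e, x⟫) := by
  have h1 : (fun t => ⟪e, Real.cos (r * t) • x + Real.sin (r * t) • v⟫) =
      fun t => Real.cos (r * t) * ⟪e, x⟫ := by
    funext t
    rw [inner_add_right, inner_smul_right, inner_smul_right, hv]
    ring
  have h2 : deriv (fun t => Real.cos (r * t) * ⟪e, x⟫) =
      fun t => -Real.sin (r * t) * r * ⟪e, x⟫ := by
    funext t
    have h3 : HasDerivAt (fun t => r * t) r t := by
      simpa using (hasDerivAt_id t).const_mul r
    exact ((h3.cos).mul_const _).deriv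
  rw [h1, h2]
  have h3 : HasDerivAt (fun t => r * t) r 0 := by
    simpa using (hasDerivAt_id (0:ℝ)).const_mul r
  have h4 := (((h3.sin).neg).mul_const r).mul_const ⟪e, x⟫
  have h5 : HasDerivAt (fun t => -Real.sin (r * t) * r * ⟪e, x⟫)
      (-(Real.cos (r * 0) * r) * r * ⟪e, x⟫) 0 := h4
  rw [h5.deriv, mul_zero, Real.cos_zero]
  ring

/-- height functions -/
theorem height_side (n : ℕ) (hn : 4 ≤ n) (R : Eu (n + 1) → ℝ) (hR : TwoSided n R)
    (hball : ¬IsSmoothBall n {x : S n | R x ≤ 0}) (e : Eu (n + 1)) (he : ‖e‖ = 1)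
    (he₁ : R (-e) < 0) (he₂ : 0 < R e) :
    ∃ x s, R x = 0 ∧ 0 < s ∧ Critical n R (fun y => ⟪e, y⟫) x s ∧
      Saddle n R (fun y => ⟪e, y⟫) x s := by
  have hF : ContDiff ℝ ∞ fun y : Eu (n + 1) => ⟪e, y⟫ := contDiff_const.inner ℝ contDiff_id
  have hfd : ∀ x v, fderiv ℝ (fun y : Eu (n + 1) => ⟪e, y⟫) x v = ⟪e, v⟫ := by
    intro x v
    have : HasFDerivAt (fun y : Eu (n + 1) => ⟪e, y⟫) (innerSL ℝ e) x :=
      (innerSL ℝ e).hasFDerivAt
    rw [this.fderiv]
    rfl
  -- critical points of the height function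
  have hcr : ∀ x, ‖x‖ = 1 → R x ≤ 0 → (∀ v, ⟪x, v⟫ = 0 → ⟪e, v⟫ = 0) → ⟪e, x⟫ = -1 := by
    intro x hx hx0 h
    have h1 : e = ⟪e, x⟫ • x := by
      rw [← sub_eq_zero]
      set g := e - ⟪e, x⟫ • x with hg
      have h2 : ⟪x, g⟫ = 0 := by
        rw [hg, inner_sub_right, inner_smul_right, real_inner_self_eq_norm_sq, hx,
          real_inner_comm]
        ring
      have h3 := h g h2
      have h4 : ⟪g, g⟫ = 0 := by
        nth_rewrite 1 [hg]
        rw [inner_sub_left, inner_smul_left, h2, h3]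
        simp
      exact inner_self_eq_zero.1 h4
    have h2 : |⟪e, x⟫| = 1 := by
      have := congrArg norm h1
      rw [he, norm_smul, hx, mul_one, Real.norm_eq_abs] at this
      exact this.symm
    rcases abs_eq (zero_le_one' ℝ) |>.1 h2 with h3 | h3
    · exfalso
      rw [h3, one_smul] at h1
      rw [← h1] at hx0
      linarith
    · exact h3
  have hNM : NoMax n R fun y => ⟪e, y⟫ := by
    intro x hx hx0 h
    simp only [hfd] at h
    have h1 := hcr x hx hx0 h
    obtain ⟨v, hv, hxv⟩ : ∃ v : Eu (n + 1), ‖v‖ = 1 ∧ ⟪x, v⟫ = 0 := by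
      have e3 := Submodule.finrank_add_finrank_orthogonal (Submodule.span ℝ {x})
      have e4 : Module.finrank ℝ (Submodule.span ℝ {x}) ≤ 1 := by
        have := finrank_span_le_card (R := ℝ) ({x} : Set (Eu (n + 1)))
        simpa using this
      rw [finrank_euclideanSpace_fin] at e3
      haveI : Nontrivial (Submodule.span ℝ {x})ᗮ :=
        Module.nontrivial_of_finrank_pos (R := ℝ) (by omega)
      obtain ⟨v, hv⟩ := exists_norm_eq (Submodule.span ℝ {x})ᗮ (zero_le_one' ℝ)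
      exact ⟨v, hv, (Submodule.mem_orthogonal_singleton_iff_inner_right).1 v.2⟩
    obtain ⟨c1, c2, -, c4⟩ := circle hx hv hxv 1
    refine ⟨_, c1, c2, c4, ?_⟩
    have h6 := second_circle (x := x) (h v hxv) 1
    rw [h6, h1]
    norm_num
  obtain ⟨x, s, hc, hs⟩ := one_side n hn R hR hball _ hF hNM
  have hs0 : s ≠ 0 := by
    rintro rfl
    obtain ⟨hx, hx0, -, -, h⟩ := hc
    simp only [hfd, zero_mul, add_zero] at h
    have h1 := hcr x hx hx0 h
    obtain ⟨⟨v, w, hli, hv, hw, -, -, hvar⟩, -⟩ := hs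
    have hv0 : v ≠ 0 := hli.ne_zero 0
    have hn0 : 0 < ‖v‖ := norm_pos_iff.2 hv0
    set v' : Eu (n + 1) := ‖v‖⁻¹ • v with hv'
    have hv'n : ‖v'‖ = 1 := by
      rw [hv', norm_smul, norm_inv, norm_norm, inv_mul_cancel₀ hn0.ne']
    have hxv' : ⟪x, v'⟫ = 0 := by rw [hv', inner_smul_right, hv, mul_zero]
    have hvv : ‖v‖ • v' = (1:ℝ) • v + (0:ℝ) • w := by
      rw [hv', smul_smul, mul_inv_cancel₀ hn0.ne', zero_smul, add_zero]
    have h5 := hvar 1 0 _ (by rw [← hvv]; exact circle hx hv'n hxv' ‖v‖)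
    unfold second at h5
    simp only [zero_mul, add_zero] at h5
    rw [second_circle (h v' hxv'), h1] at h5
    have : 0 < ‖v‖ ^ 2 := by positivity
    linarith
  exact ⟨x, s, (mul_eq_zero.1 hc.2.2.2.1).resolve_left hs0,
    lt_of_le_of_ne hc.2.2.1 (Ne.symm hs0), hc, hs⟩

/-- **Both kinds of saddles.** In each pair the first point is on the side `{R ≤ 0}`; the second, a
critical point of `-F`, is on the side `{R ≥ 0}`. For a height function with its minimum inside the
first side and its maximum inside the second both points are on `M = {R = 0}`. -/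
theorem result (n : ℕ) (hn : 4 ≤ n) (R : Eu (n + 1) → ℝ) (hR : TwoSided n R)
    (hk : ¬Unknotted n R) :
    (∀ F : Eu (n + 1) → ℝ, ContDiff ℝ ∞ F → NoMax n R F →
      NoMax n (fun x => -R x) (fun x => -F x) →
      (∃ x s, Critical n R F x s ∧ Saddle n R F x s) ∧
      ∃ x s, Critical n (fun x => -R x) (fun x => -F x) x s ∧
        Saddle n (fun x => -R x) (fun x => -F x) x s) ∧
    ∀ e : Eu (n + 1), ‖e‖ = 1 → R (-e) < 0 → 0 < R e →
      (∃ x s, R x = 0 ∧ 0 < s ∧ Critical n R (fun y => ⟪e, y⟫) x s ∧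
        Saddle n R (fun y => ⟪e, y⟫) x s) ∧
      ∃ x s, R x = 0 ∧ 0 < s ∧ Critical n (fun y => -R y) (fun y => -⟪e, y⟫) x s ∧
        Saddle n (fun y => -R y) (fun y => -⟪e, y⟫) x s := by
  have hR' := neg_twoSided hR
  have hk' : ¬Unknotted n fun z => -R z := fun h => hk (unknotted_neg h)
  refine ⟨fun F hF h₁ h₂ => ⟨one_side n hn R hR (not_ball hR hk) F hF h₁,
    one_side n hn _ hR' (not_ball hR' hk') _ hF.neg h₂⟩, fun e he he₁ he₂ =>
    ⟨height_side n hn R hR (not_ball hR hk) e he he₁ he₂, ?_⟩⟩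
  obtain ⟨x, s, h1, h2, h3, h4⟩ := height_side n hn _ hR' (not_ball hR' hk') (-e)
    (by rw [norm_neg]; exact he) (by rw [neg_neg]; linarith) (by linarith)
  have h5 : (fun y : Eu (n + 1) => ⟪-e, y⟫) = fun y => -⟪e, y⟫ := by
    funext y
    rw [inner_neg_left]
  rw [h5] at h3 h4
  exact ⟨x, s, neg_eq_zero.1 h1, h2, h3, h4⟩

end Pool.Agent.Results.MP_6c077c_gt.BothSaddles
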