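import Pool.Agent.Q196.XF.Sch

/-!
# Critical points with a nonpositive plane on both sides of a knotted hypersurface

Let `M ⊂ Sⁿ` be a smooth closed simply connected hypersurface with two connected sides
`W₁ = {R ≤ 0}` and `W₂ = {R ≥ 0}` (for instance a smooth 3-sphere in `S⁴`), and suppose that `M` is
knotted: the sides are not both diffeomorphic to the closed ball. Then every smooth function `F` on
the sphere has on each side a critical point (an interior critical point, or a critical point of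
the restriction of `F` to `M` at which the gradient of `F` points into the side) at which the second
variation is nonpositive on a plane of tangent directions.
-/

set_option autoImplicit false

namespace Pool.Agent.Results.MP_6c077c_gt.CriticalPlanes

open Set Metric Filter
open scoped Manifold ContDiff Topology RealInnerProductSpace

/-- Euclidean space of dimension `n`. -/
abbrev Eu (n : ℕ) := EuclideanSpace ℝ (Fin n)

/-- The unit sphere `Sⁿ` of `ℝⁿ⁺¹`. -/
abbrev S (n : ℕ) := sphere (0 : Eu (n + 1)) 1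

/-- `W` is a smoothly embedded closed `n`-ball of `Sⁿ`. -/
def IsSmoothBall (n : ℕ) (W : Set (S n)) : Prop :=
  ∃ Φ : Eu n → S n, Topology.IsOpenEmbedding Φ ∧ IsLocalDiffeomorph (𝓡 n) (𝓡 n) ∞ Φ ∧
    Φ '' closedBall 0 1 = W

/-- `M = {R = 0}` is a simply connected smooth hypersurface of the sphere with two connected sides:
`R` is smooth, `0` is a regular value of its restriction to the sphere, `{R ≤ 0}` and `{R ≥ 0}` are
connected, and `{R = 0}` is simply connected. -/
structure TwoSided (n : ℕ) (R : Eu (n + 1) → ℝ) : Prop where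
  smooth : ContDiff ℝ ∞ R
  regular : ∀ x, ‖x‖ = 1 → R x = 0 → ∃ v, ⟪x, v⟫ = 0 ∧ fderiv ℝ R x v ≠ 0
  connected_neg : IsConnected {x : S n | R x ≤ 0}
  connected_pos : IsConnected {x : S n | 0 ≤ R x}
  simply : SimplyConnectedSpace {x : S n | R x = 0}

/-- Both sides of `M = {R = 0}` are diffeomorphic to the closed ball. -/
def Unknotted (n : ℕ) (R : Eu (n + 1) → ℝ) : Prop :=
  IsSmoothBall n {x : S n | R x ≤ 0} ∧ IsSmoothBall n {x : S n | 0 ≤ R x}

/-- `x` is a critical point of the restriction of `F` to `{R ≤ 0}`, with multiplier `s ≥ 0` (equal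
to `0` if `R x < 0`): `dF + s dR = 0` on the tangent vectors of the sphere at `x`; and on the plane
spanned by two linearly independent tangent vectors `v`, `w` of the sphere (tangent to `{R = 0}` if
`s > 0`) the second variation is nonpositive: the second derivative of `F + s R` is at most `0`
along every curve of the sphere which passes through `x` with velocity in the plane. -/
def CritPlane (n : ℕ) (R F : Eu (n + 1) → ℝ) (x : Eu (n + 1)) (s : ℝ) : Prop :=
  ‖x‖ = 1 ∧ R x ≤ 0 ∧ 0 ≤ s ∧ s * R x = 0 ∧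
    (∀ v, ⟪x, v⟫ = 0 → fderiv ℝ F x v + s * fderiv ℝ R x v = 0) ∧
    ∃ v w : Eu (n + 1), LinearIndependent ℝ ![v, w] ∧ ⟪x, v⟫ = 0 ∧ ⟪x, w⟫ = 0 ∧
      s * fderiv ℝ R x v = 0 ∧ s * fderiv ℝ R x w = 0 ∧
      ∀ (a b : ℝ) (γ : ℝ → Eu (n + 1)), ContDiffAt ℝ 2 γ 0 → γ 0 = x →
        deriv γ 0 = a • v + b • w → (∀ᶠ t in 𝓝 0, ‖γ t‖ = 1) →
        deriv (deriv fun t => F (γ t) + s * R (γ t)) 0 ≤ 0

theorem neg_twoSided {n : ℕ} {R : Eu (n + 1) → ℝ} (hR : TwoSided n R) :
    TwoSided n (fun z => -R z) := by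
  have hfd : ∀ x, fderiv ℝ (fun z => -R z) x = -fderiv ℝ R x := fun x => fderiv_neg
  refine ⟨hR.smooth.neg, fun x hx hx0 => ?_, ?_, ?_, ?_⟩
  · obtain ⟨v, hv1, hv2⟩ := hR.regular x hx (by simpa using hx0)
    exact ⟨v, hv1, by rw [hfd]; simpa using hv2⟩
  · have : {x : S n | -R (x : Eu (n + 1)) ≤ 0} = {x : S n | 0 ≤ R x} := by ext x; simp
    rw [this]; exact hR.connected_pos
  · have : {x : S n | 0 ≤ -R (x : Eu (n + 1))} = {x : S n | R x ≤ 0} := by ext x; simp
    rw [this]; exact hR.connected_neg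
  · have : {x : S n | -R (x : Eu (n + 1)) = 0} = {x : S n | R x = 0} := by ext x; simp
    rw [this]; exact hR.simply

/-- neither side of a knotted hypersurface is a ball -/
theorem not_ball {n : ℕ} {R : Eu (n + 1) → ℝ} (hR : TwoSided n R) (hk : ¬Unknotted n R) :
    ¬IsSmoothBall n {x : S n | R x ≤ 0} := by
  haveI : Fact (Module.finrank ℝ (Eu (n + 1)) = n + 1) := ⟨finrank_euclideanSpace_fin⟩
  exact fun h => hk ⟨h, Q100.SS.other_side hR.smooth hR.regular h⟩

theorem unknotted_neg {n : ℕ} {R : Eu (n + 1) → ℝ} (h : Unknotted n fun z => -R z) :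
    Unknotted n R := by
  obtain ⟨h1, h2⟩ := h
  have e1 : {x : S n | -R (x : Eu (n + 1)) ≤ 0} = {x : S n | 0 ≤ R x} := by ext x; simp
  have e2 : {x : S n | 0 ≤ -R (x : Eu (n + 1))} = {x : S n | R x ≤ 0} := by ext x; simp
  rw [e1] at h1
  rw [e2] at h2
  exact ⟨h2, h1⟩

theorem one_side (n : ℕ) (R : Eu (n + 1) → ℝ) (hR : TwoSided n R)
    (hball : ¬IsSmoothBall n {x : S n | R x ≤ 0}) (F : Eu (n + 1) → ℝ) (hF : ContDiff ℝ ∞ F) :
    ∃ x s, CritPlane n R F x s := by
  haveI : Fact (Module.finrank ℝ (Eu (n + 1)) = n + 1) := ⟨finrank_euclideanSpace_fin⟩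
  have hball' : ¬Q100.SS.IsBallS n {x : S n | R x ≤ 0} := hball
  obtain ⟨x, h1, h2, s, h3, h4, h5, h6⟩ :=
    Q196.XF.sph_crit hR.smooth hR.regular hR.connected_neg hball' hR.simply hF
  exact ⟨x, s, h1, h2, h3, h4, h5, h6⟩

theorem result (n : ℕ) (R : Eu (n + 1) → ℝ) (hR : TwoSided n R) (hk : ¬Unknotted n R) :
    ∀ F : Eu (n + 1) → ℝ, ContDiff ℝ ∞ F →
      (∃ x s, CritPlane n R F x s) ∧ (∃ x s, CritPlane n (fun z => -R z) F x s) := by
  have hR' := neg_twoSided hR
  have hk' : ¬Unknotted n fun z => -R z := fun h => hk (unknotted_neg h)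
  exact fun F hF => ⟨one_side n R hR (not_ball hR hk) F hF,
    one_side n _ hR' (not_ball hR' hk') F hF⟩

end Pool.Agent.Results.MP_6c077c_gt.CriticalPlanes
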