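import Pool.Agent.Q235.NL.Sch
import Pool.Agent.Q235.NL.Sim

/-!
# Smooth Schoenflies for 3-spheres bounding a ball which is close to linear at all small scales

A smooth 3-sphere in `ℝ⁴` (so in `S⁴`) is given together with a parametrization `H` of the
topological ball which it bounds: `H` is continuous and injective on a neighbourhood of the closed
unit ball and a local diffeomorphism near the unit sphere. There is a universal `ε > 0` such that
the sphere is unknotted as soon as near every interior point where `H` is not a local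
diffeomorphism, on all balls `B(z, r)` of small radius, `H` is `ε r`-close to an affine map (after a
linear change of the target) or distorts distances by a factor `c` up to `ε c r`. The linear map,
respectively the factor `c`, may depend on the ball in an arbitrary way.
-/

set_option autoImplicit false

open Set Filter Topology Metric Function
open scoped ContDiff

namespace Pool.Agent.Results.MP_6c077c_gt.NearlyLinearBall

/-- `ℝ⁴` -/
abbrev R4 : Type := EuclideanSpace ℝ (Fin 4)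

/-- `H` is a local diffeomorphism at `x`: smooth near `x`, with bijective derivative at `x` -/
def LocDiff (H : R4 → R4) (x : R4) : Prop :=
  (∀ᶠ y in 𝓝 x, ContDiffAt ℝ ∞ H y) ∧ Bijective (fderiv ℝ H x)

/-- at all small scales `r` and all points `z` near `x` there is a linear map `L` such that `L ∘ H`
is `ε r`-close to a translation on the ball `B(z, r)` -/
def CloseToLinear (ε : ℝ) (H : R4 → R4) (x : R4) : Prop :=
  ∃ ρ : ℝ, 0 < ρ ∧ ∀ z : R4, ‖z - x‖ < ρ → ∀ r : ℝ, 0 < r → r < ρ →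
    ∃ L : R4 →L[ℝ] R4, ∀ w : R4, ‖w‖ ≤ r → ‖L (H (z + w) - H z) - w‖ ≤ ε * r

/-- at all small scales `r` and all points `z` near `x` there is a factor `c` such that `H`
multiplies all distances in the ball `B(z, r)` by `c`, with an error of at most `ε c r` -/
def CloseToSimilarity (ε : ℝ) (H : R4 → R4) (x : R4) : Prop :=
  ∃ ρ : ℝ, 0 < ρ ∧ ∀ z : R4, ‖z - x‖ < ρ → ∀ r : ℝ, 0 < r → r < ρ →
    ∃ c : ℝ, 0 < c ∧ ∀ p q : R4, ‖p - z‖ ≤ r → ‖q - z‖ ≤ r →
      |‖H p - H q‖ - c * ‖p - q‖| ≤ ε * c * r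

/-- `G` is a diffeomorphism of `ℝ⁴`, equal to a linear isometry outside a compact set (so it extends
to a diffeomorphism of `S⁴`) -/
def StandardAtInfinity (G : R4 → R4) : Prop :=
  ContDiff ℝ ∞ G ∧ (∃ K : R4 → R4, ContDiff ℝ ∞ K ∧ LeftInverse K G ∧ RightInverse K G) ∧
    ∃ (O : R4 ≃ₗᵢ[ℝ] R4) (R : ℝ), ∀ x, R ≤ ‖x‖ → G x = O x

theorem result : ∃ ε : ℝ, 0 < ε ∧ ∀ (H : R4 → R4) (δ : ℝ), 0 < δ →
    ContinuousOn H (ball 0 (1 + δ)) → InjOn H (ball 0 (1 + δ)) →
    (∀ x, 1 ≤ ‖x‖ → ‖x‖ < 1 + δ → LocDiff H x) →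
    (∀ x, ‖x‖ < 1 → LocDiff H x ∨ CloseToLinear ε H x ∨ CloseToSimilarity ε H x) →
    ∃ G : R4 → R4, StandardAtInfinity G ∧ (∀ x, ‖x‖ = 1 → G x = H x) ∧
      G '' closedBall 0 1 = H '' closedBall 0 1 := by
  refine ⟨min (Pool.Agent.Q235.NL.eps 4) (Pool.Agent.Q235.NL.epsS 4),
    lt_min Pool.Agent.Q235.NL.eps_pos Pool.Agent.Q235.NL.epsS_pos, ?_⟩
  intro H δ hδ hc hi hs h
  obtain ⟨G, O, R, hb, hL, h1, h2, h3⟩ := Pool.Agent.Q235.NL.sch 4 H δ hδ hc hi
    (fun x hx hx' => Pool.Agent.Y522.LD_of_bij (hs x hx hx').1 (hs x hx hx').2)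
    (fun x hx hn => by
      rcases h x hx with h' | h' | h'
      · exact absurd (Pool.Agent.Y522.LD_of_bij h'.1 h'.2) hn
      · exact Pool.Agent.Q235.NL.NearLin.mono (min_le_left _ _) h'
      · exact Pool.Agent.Q235.NL.nearLin_of_epsS
          (lt_min Pool.Agent.Q235.NL.eps_pos Pool.Agent.Q235.NL.epsS_pos) (min_le_right _ _) h')
  obtain ⟨hG, hK⟩ := Pool.Agent.Y522.smooth_inverse hb hL
  exact ⟨G, ⟨hG, hK, O, R, h3⟩, h1, h2⟩

end Pool.Agent.Results.MP_6c077c_gt.NearlyLinearBall
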