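import Pool.Agent.Q100.SS.Disc

/-!
# Circles orthogonal to a knotted hypersurface of the sphere

Let `M ⊂ Sⁿ` be a smooth closed hypersurface with two connected sides `W₁ = {R ≤ 0}` and
`W₂ = {R ≥ 0}`, and suppose that `M` is knotted: the sides are not both diffeomorphic to the closed
ball. Then through any two different points `p` and `q` outside `M` there is a circle which is
orthogonal to `M` at some point `x` of `M`. If `p` is inside `W₁` and `q` is inside `W₂`, there are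
two such points `x`, `x'` (possibly equal): `x` is not a strict local minimum on `W₁` of
`|z - p| / |z - q|`, and this quotient has a nonpositive second derivative along `M` in some
direction at `x`; `x'` has the same property for `W₂` and `|z - q| / |z - p|`.
-/

set_option autoImplicit false

namespace Pool.Agent.Results.MP_6c077c_gt.OrthogonalCircles

open Set Metric Filter
open scoped Manifold ContDiff Topology RealInnerProductSpace

/-- Euclidean space of dimension `n`. -/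
abbrev Eu (n : ℕ) := EuclideanSpace ℝ (Fin n)

/-- The unit sphere `Sⁿ` of `ℝⁿ⁺¹`. -/
abbrev S (n : ℕ) := sphere (0 : Eu (n + 1)) 1

/-- `W` is a smoothly embedded closed `n`-ball of `Sⁿ`. -/
def IsSmoothBall (n : ℕ) (W : Set (S n)) : Prop :=
  ∃ Φ : Eu n → S n, Topology.IsOpenEmbedding Φ ∧ IsLocalDiffeomorph (𝓡 n) (𝓡 n) ∞ Φ ∧
    Φ '' closedBall 0 1 = W

/-- `M = {R = 0}` is a smooth hypersurface of the sphere with two connected sides: `R` is smooth,
`0` is a regular value of its restriction to the sphere, `{R ≤ 0}` and `{R ≥ 0}` are connected. -/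
structure TwoSided (n : ℕ) (R : Eu (n + 1) → ℝ) : Prop where
  smooth : ContDiff ℝ ∞ R
  regular : ∀ x, ‖x‖ = 1 → R x = 0 → ∃ v, ⟪x, v⟫ = 0 ∧ fderiv ℝ R x v ≠ 0
  connected_neg : IsConnected {x : S n | R x ≤ 0}
  connected_pos : IsConnected {x : S n | 0 ≤ R x}

/-- Both sides of `M = {R = 0}` are diffeomorphic to the closed ball. -/
def Unknotted (n : ℕ) (R : Eu (n + 1) → ℝ) : Prop :=
  IsSmoothBall n {x : S n | R x ≤ 0} ∧ IsSmoothBall n {x : S n | 0 ≤ R x}

/-- The vector `(p - x) / |p - x|² - (q - x) / |q - x|²`, which is tangent at `x` to the circle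
through `p`, `q` and `x`. -/
noncomputable def tangent {n : ℕ} (p q x : Eu (n + 1)) : Eu (n + 1) :=
  (‖p - x‖ ^ 2)⁻¹ • (p - x) - (‖q - x‖ ^ 2)⁻¹ • (q - x)

/-- `x` is a point of `M = {R = 0}`, and the gradient at `x` of the restriction of `R` to the
sphere is `c • tangent p q x`. -/
def GradTangent (n : ℕ) (R : Eu (n + 1) → ℝ) (p q x : Eu (n + 1)) (c : ℝ) : Prop :=
  ‖x‖ = 1 ∧ R x = 0 ∧ ∀ v, ⟪x, v⟫ = 0 → fderiv ℝ R x v = c * ⟪tangent p q x, v⟫

/-- The quotient of the squared distances from `p` and from `q`. -/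
noncomputable def quot {n : ℕ} (p q z : Eu (n + 1)) : ℝ := ‖z - p‖ ^ 2 / ‖z - q‖ ^ 2

/-- `x` is not a strict local minimum of `quot p q` on `{R ≤ 0}`, and for some nonzero tangent
vector `v` of `M = {R = 0}` at `x`, the second derivative of `quot p q` is at most `0` along every
curve of `M` which passes through `x` with velocity `v`. -/
def NotMin (n : ℕ) (R : Eu (n + 1) → ℝ) (p q x : Eu (n + 1)) : Prop :=
  (¬∀ᶠ z in 𝓝 x, ‖z‖ = 1 → R z ≤ 0 → z ≠ x → quot p q x < quot p q z) ∧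
  ∃ v, v ≠ 0 ∧ ⟪x, v⟫ = 0 ∧ fderiv ℝ R x v = 0 ∧
    ∀ γ : ℝ → Eu (n + 1), ContDiffAt ℝ 2 γ 0 → γ 0 = x → deriv γ 0 = v →
      (∀ᶠ t in 𝓝 0, ‖γ t‖ = 1 ∧ R (γ t) = 0) → deriv (deriv fun t => quot p q (γ t)) 0 ≤ 0

theorem one_side (n : ℕ) (R : Eu (n + 1) → ℝ) (hR : TwoSided n R)
    (hball : ¬IsSmoothBall n {x : S n | R x ≤ 0})
    (p q : Eu (n + 1)) (hp : ‖p‖ = 1) (hq : ‖q‖ = 1) (hpq : p ≠ q) (hRq : 0 < R q)
    (hRp : R p ≠ 0) :
    ∃ x, (∃ c, 0 < c ∧ GradTangent n R p q x c) ∧ (R p < 0 → NotMin n R p q x) := by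
  haveI : Fact (Module.finrank ℝ (Eu (n + 1)) = n + 1) := ⟨finrank_euclideanSpace_fin⟩
  have hball' : ¬Q100.SS.IsBallS n {x : S n | R x ≤ 0} := hball
  obtain ⟨x, hx1, hx2, c, hc, ho, h⟩ := Q100.SS.circles hR.smooth hR.regular hR.connected_neg
    hball' hp hq hRq hpq hRp
  refine ⟨x, ⟨c, hc, hx1, hx2, fun v hv => ?_⟩, fun hneg => h hneg⟩
  have h5 : ⟪tangent p q x, v⟫ = ⟪p - x, v⟫ / ‖p - x‖ ^ 2 - ⟪q - x, v⟫ / ‖q - x‖ ^ 2 := by
    unfold tangent
    rw [inner_sub_left (x := (‖p - x‖ ^ 2)⁻¹ • (p - x)), inner_smul_left, inner_smul_left]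
    simp only [conj_trivial, div_eq_inv_mul]
  rw [ho v hv, h5]

theorem neg_twoSided {n : ℕ} {R : Eu (n + 1) → ℝ} (hR : TwoSided n R) :
    TwoSided n (fun z => -R z) := by
  have hfd : ∀ x, fderiv ℝ (fun z => -R z) x = -fderiv ℝ R x := fun x => fderiv_neg
  refine ⟨hR.smooth.neg, fun x hx hx0 => ?_, ?_, ?_⟩
  · obtain ⟨v, hv1, hv2⟩ := hR.regular x hx (by simpa using hx0)
    exact ⟨v, hv1, by rw [hfd]; simpa using hv2⟩
  · have : {x : S n | -R (x : Eu (n + 1)) ≤ 0} = {x : S n | 0 ≤ R x} := by ext x; simp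
    rw [this]; exact hR.connected_pos
  · have : {x : S n | 0 ≤ -R (x : Eu (n + 1))} = {x : S n | R x ≤ 0} := by ext x; simp
    rw [this]; exact hR.connected_neg

theorem gradTangent_neg {n : ℕ} {R : Eu (n + 1) → ℝ} {p q x : Eu (n + 1)} {c : ℝ}
    (h : GradTangent n (fun z => -R z) q p x c) : GradTangent n R p q x c := by
  obtain ⟨h1, h2, h3⟩ := h
  refine ⟨h1, by simpa using h2, fun v hv => ?_⟩
  have hfd : fderiv ℝ (fun z => -R z) x v = -fderiv ℝ R x v := by rw [fderiv_fun_neg]; rfl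
  have h4 := h3 v hv
  have h5 : tangent q p x = -tangent p q x := by unfold tangent; abel
  rw [hfd, h5, inner_neg_left] at h4
  linarith

/-- neither side of a knotted hypersurface is a ball -/
theorem not_ball {n : ℕ} {R : Eu (n + 1) → ℝ} (hR : TwoSided n R) (hk : ¬Unknotted n R) :
    ¬IsSmoothBall n {x : S n | R x ≤ 0} := by
  haveI : Fact (Module.finrank ℝ (Eu (n + 1)) = n + 1) := ⟨finrank_euclideanSpace_fin⟩
  exact fun h => hk ⟨h, Q100.SS.other_side hR.smooth hR.regular h⟩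

theorem unknotted_neg {n : ℕ} {R : Eu (n + 1) → ℝ} (h : Unknotted n fun z => -R z) :
    Unknotted n R := by
  obtain ⟨h1, h2⟩ := h
  have e1 : {x : S n | -R (x : Eu (n + 1)) ≤ 0} = {x : S n | 0 ≤ R x} := by ext x; simp
  have e2 : {x : S n | 0 ≤ -R (x : Eu (n + 1))} = {x : S n | R x ≤ 0} := by ext x; simp
  rw [e1] at h1
  rw [e2] at h2
  exact ⟨h2, h1⟩

theorem result (n : ℕ) (R : Eu (n + 1) → ℝ) (hR : TwoSided n R) (hk : ¬Unknotted n R) :
    (∀ p q : Eu (n + 1), ‖p‖ = 1 → ‖q‖ = 1 → p ≠ q → R p ≠ 0 → R q ≠ 0 →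
      ∃ x c, c ≠ 0 ∧ GradTangent n R p q x c) ∧
    (∀ p q : Eu (n + 1), ‖p‖ = 1 → ‖q‖ = 1 → R p < 0 → 0 < R q →
      (∃ x c, 0 < c ∧ GradTangent n R p q x c ∧ NotMin n R p q x) ∧
      (∃ x c, 0 < c ∧ GradTangent n R p q x c ∧ NotMin n (fun z => -R z) q p x)) := by
  have hR' := neg_twoSided hR
  have hk' : ¬Unknotted n fun z => -R z := fun h => hk (unknotted_neg h)
  have hb := not_ball hR hk
  have hb' := not_ball hR' hk'
  refine ⟨fun p q hp hq hpq hRp hRq => ?_, fun p q hp hq hRp hRq => ⟨?_, ?_⟩⟩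
  · rcases lt_or_gt_of_ne hRq with h | h
    · obtain ⟨x, ⟨c, hc, hx⟩, -⟩ := one_side n _ hR' hb' p q hp hq hpq (by simpa using h)
        (by simpa using hRp)
      have h1 : GradTangent n R q p x c := gradTangent_neg hx
      refine ⟨x, -c, by simpa using hc.ne', h1.1, h1.2.1, fun v hv => ?_⟩
      have h5 : tangent q p x = -tangent p q x := by unfold tangent; abel
      rw [h1.2.2 v hv, h5, inner_neg_left]
      ring
    · obtain ⟨x, ⟨c, hc, hx⟩, -⟩ := one_side n R hR hb p q hp hq hpq h hRp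
      exact ⟨x, c, hc.ne', hx⟩
  · obtain ⟨x, ⟨c, hc, hx⟩, h⟩ := one_side n R hR hb p q hp hq (by rintro rfl; linarith) hRq hRp.ne
    exact ⟨x, c, hc, hx, h hRp⟩
  · obtain ⟨x, ⟨c, hc, hx⟩, h⟩ := one_side n _ hR' hb' q p hq hp (by rintro rfl; linarith)
      (by simpa using hRp) (by simpa using hRq.ne')
    exact ⟨x, c, hc, gradTangent_neg hx, h (by simpa using hRq)⟩

end Pool.Agent.Results.MP_6c077c_gt.OrthogonalCircles
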